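import Pool.Agent.L7h3.QD.Stm

set_option autoImplicit false
set_option linter.unusedSectionVars false
set_option linter.unusedVariables false

/-! From a Hecke character to the L-series without the places above two. -/

open NumberField IsDedekindDomain

namespace Pool.Agent.L7h32.QD

open scoped Classical
open WeierstrassCurve
open Pool.Agent.L7h3.MQ
open Pool.Agent.L7h3.QD
open Pool.Agent.Y699
open Pool.Agent.W189.NF (aV eV)
open Pool.Agent.H921R2.TatePole (nm two_le_nm below)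
open H385 (ZI RQ im1 nrm)
open Pool.Agent.W164.RC (tc_mul tc_star two2 prim_iff_dvd unit_norm unit_cases Ip Ip_spec Ip_exists dg
  aD_roots local_poly local_two ep_hecke)
open Pool.Agent.H304R3.HK (tc HC LH bH psi psi_apply uh_psi goodH bb ee UH tc_star_mul tc_ne_zero)
open Pool.Agent.H304R2.EC.A1 (prim prim_mul prim_cancel prim_one prim_norm_odd prim_star eq_one_of_prim
  norm_def' re_mul' im_mul' eq_of_dvd prim_ne_zero exists_prim)
open Pool.Agent.Y696 (HBd LSeries_hasProd')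
open Pool.Agent.Y715.Z

variable {K : Type} [Field K] [NumberField K]

lemma nrm_pi1 : nrm pi1 = 2 := by decide

lemma gpsi_two (X : ZI →* ℂ) (s : ℂ) :
    psi X pi1 * (((2 : ℕ) : ℂ) ^ (-(s - 1 / 2))) = X pi1 * tc pi1 * ((nrm pi1 : ℕ) : ℂ) ^ (-s) := by
  have hne : (pi1 : ZI) ≠ 0 := pi1_prime.ne_zero
  rw [psi_apply _ hne, nrm_pi1]
  have hp0 : ((2 : ℕ) : ℂ) ≠ 0 := by norm_num
  have e1 : ((2 : ℕ) : ℂ) ^ (-(s - 1 / 2)) = ((2 : ℕ) : ℂ) ^ (-s) * ((2 : ℕ) : ℂ) ^ ((1 / 2 : ℂ)) := by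
    rw [← Complex.cpow_add _ _ hp0]
    congr 1
    ring
  have e2 : ((‖tc pi1‖ : ℝ) : ℂ) = ((2 : ℕ) : ℂ) ^ ((1 / 2 : ℂ)) := by
    rw [norm_tc_eq, nrm_pi1, Complex.ofReal_cpow (by norm_num)]
    push_cast
    rfl
  have e3 : ((‖tc pi1‖ : ℝ) : ℂ) ≠ 0 := by
    rw [Complex.ofReal_ne_zero, norm_ne_zero_iff]
    exact tc_ne_zero hne
  rw [e1, ← e2]
  field_simp

theorem g1_hasProd' {q : ZI} {X : ZI →* ℂ} (H : HC q X) (e : ZI ≃+* 𝓞 K) {s : ℂ} (hs : 3 / 2 < s.re) :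
    HasProd (g1 X e s) (LH X (s - 1 / 2)) := by
  obtain ⟨A, hA, hgood⟩ := goodH
  have hre : 1 < (s - 1 / 2).re := by
    have : (s - 1 / 2).re = s.re - 1 / 2 := by simp
    rw [this]; linarith
  have h1 := ep_hecke (uh_psi _ _ H) (s - 1 / 2) _ ((hgood _ _ H).2.1 _ hre)
  rw [← (plEquiv e).hasProd_iff]
  refine HasProd.sigma_of_hasProd h1 (fun p => ?_) ?_
  · have h2 : (1 - bb (psi X) (p : ℕ) * (((p : ℕ) : ℂ) ^ (-(s - 1 / 2))) +
        ee (psi X) (p : ℕ) * (((p : ℕ) : ℂ) ^ (-(s - 1 / 2))) ^ 2)⁻¹ =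
        ∏ z : {z : ZI // z ∈ Iq p}, (g1 X e s ∘ plEquiv e) ⟨p, z⟩ := by
      have h3 : ∀ z : {z : ZI // z ∈ Iq p}, (g1 X e s ∘ plEquiv e) ⟨p, z⟩ =
          (1 - X z.1 * tc z.1 * ((nrm z.1 : ℕ) : ℂ) ^ (-s))⁻¹ := by
        rintro ⟨z, hz⟩
        show g1 X e s (plc e (Iq_spec hz).1) = _
        unfold g1
        rw [pg_plc e hz, norm_pg e (z := z) rfl]
      simp_rw [h3]
      rw [Finset.prod_coe_sort (Iq p) (fun z => (1 - X z * tc z * ((nrm z : ℕ) : ℂ) ^ (-s))⁻¹)]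
      unfold Iq
      split_ifs with hp2
      · rw [Finset.prod_singleton]
        rw [hp2, local_two (uh_psi _ _ H)]
        rw [← gpsi_two X s]
        rfl
      · rw [local_poly (uh_psi _ _ H) p.2 hp2, ← Finset.prod_inv_distrib]
        refine Finset.prod_congr rfl fun z hz => ?_
        rw [gpsi_term hz]
    rw [h2]
    exact hasProd_fintype _
  · exact (plEquiv e).multipliable_iff.2 (g1_mul H e hs)

theorem g2_hasProd' {q : ZI} {X : ZI →* ℂ} (H : HC q X) (e : ZI ≃+* 𝓞 K) {s : ℂ} (hs : 3 / 2 < s.re) :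
    HasProd (g2 X e s) ((starRingEnd ℂ) (LH X ((starRingEnd ℂ) s - 1 / 2))) := by
  have h1 := g1_hasProd' H e (s := (starRingEnd ℂ) s) (by rwa [Complex.conj_re])
  have h2 := h1.map (starRingEnd ℂ) Complex.continuous_conj
  refine h2.congr_fun (fun v => ?_)
  rw [g2_eq]
  rfl

variable (e : ZI ≃+* 𝓞 K)

/-- the local factors at the odd places -/
theorem locF {X : ZI →* ℂ} {δ : ZI}
    (h1 : ∀ z : ZI, PP z → ¬ z ∣ δ → X z = (starRingEnd ℂ) (tc (Pool.Agent.Y699.q4 z (-δ))))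
    (h2 : ∀ z : ZI, PP z → z ∣ δ → X z = 0 ∧ ∃ m : ℕ, m % 4 ≠ 0 ∧ z ^ m ∣ δ ∧ ¬ z ^ (m + 1) ∣ δ)
    (v : HeightOneSpectrum (𝓞 K)) (s : ℂ)
    (hv2 : (below v : ℕ) ≠ 2 ∧ pg e v ∈ Ip (below v)) :
    Fac (Pool.Agent.Y715.Z.q4 ((e δ : 𝓞 K) : K)) s v = g1 X e s v * g2 X e s v := by
  have hsp := pg_span e v
  set z := pg e v with hz
  have hzp : Prime z := pg_prime e v
  have hPP : PP z := ⟨(Ip_spec (below v).2 hv2.2).2.1, (Ip_spec (below v).2 hv2.2).1⟩
  have hmem0 : em0 e δ = ((e δ : 𝓞 K) : K) := rfl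
  by_cases hb : z ∣ δ
  · obtain ⟨hX0, m, hm, ⟨c, hc⟩, hnd⟩ := h2 z hPP hb
    have hzc : ¬ z ∣ c := by
      rintro ⟨d, rfl⟩
      exact hnd ⟨d, by rw [hc]; ring⟩
    have hv : v = plc e hzp := by
      apply HeightOneSpectrum.ext
      rw [hsp]
      rfl
    have h2' : v.valuation K 2 = 1 := by
      have h3 := val_one (K := K) e hzp (not_dvd_two hPP)
      rw [map_ofNat] at h3
      rw [hv]; exact h3
    have hval : v.valuation K ((e δ : 𝓞 K) : K) = WithZero.exp (-(m : ℤ)) := by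
      rw [← hmem0, hv, hc, map_mul, map_mul, val_one e hzp hzc, mul_one, map_pow, map_pow, val_z,
        ← WithZero.exp_nsmul]
      congr 1
      simp
    rw [Fac_zero (bad_odd (m := (m : ℤ)) h2' hval (by omega))]
    unfold g1 g2
    rw [← hz, hX0]
    simp
  · have hgd : (2 : 𝓞 K) * e δ ∉ v.asIdeal := by
      intro h
      have h3 : (2 : 𝓞 K) * e δ = e (2 * δ) := by rw [map_mul, map_ofNat]
      rw [h3, mem_iff e hsp] at h
      rcases hzp.dvd_or_dvd h with h5 | h5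
      · exact not_dvd_two hPP h5
      · exact hb h5
    obtain ⟨ha, hE⟩ := good_place hgd
    unfold Fac
    rw [ha, hE]
    have hrec := h1 z hPP hb
    have h3 := congrArg tc (cnt4_good e hPP hsp hb)
    rw [tc_int, tc_add] at h3
    have hnd : ¬ z ∣ -δ := fun h => hb ((dvd_neg).1 h)
    have hnm : nm v = Ideal.absNorm v.asIdeal := rfl
    set q : ZI := Pool.Agent.Y699.q4 z (-δ) with hq
    have h4q : tc q * (starRingEnd ℂ) (tc q) = 1 := by
      rw [← tc_star, ← tc_mul, unit_star_mul (q4_norm hPP hnd), tc_one]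
    have h5 : tc z * tc (star z) = ((Ideal.absNorm v.asIdeal : ℕ) : ℂ) := by
      rw [norm_pg e hsp, ← tc_mul, ← Zsqrtd.norm_eq_mul_conj, ← nrm_cast]
      unfold tc
      simp
    have h7 : tc (star q) = (starRingEnd ℂ) (tc q) := tc_star _
    unfold g1 g2
    rw [← hz, hrec, ← mul_inv, Complex.conj_conj]
    congr 1
    rw [hnm, h3, tc_mul, tc_mul, h7]
    push_cast
    linear_combination (-(((Ideal.absNorm v.asIdeal : ℕ) : ℂ) ^ (-s)) ^ 2) * h5 -
      (tc z * tc (star z)) * (((Ideal.absNorm v.asIdeal : ℕ) : ℂ) ^ (-s)) ^ 2 * h4q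

/-- the inverse of the first factor is not zero -/
lemma fac1_ne {q : ZI} {X : ZI →* ℂ} (H : HC q X) (v : HeightOneSpectrum (𝓞 K)) {s : ℂ}
    (hs : 1 / 2 < s.re) :
    1 - X (pg e v) * tc (pg e v) * ((Ideal.absNorm v.asIdeal : ℕ) : ℂ) ^ (-s) ≠ 0 := by
  intro h
  have h1 := gterm_bound H e s v
  have h2 : X (pg e v) * tc (pg e v) * ((Ideal.absNorm v.asIdeal : ℕ) : ℂ) ^ (-s) = 1 := by
    linear_combination -h
  rw [h2, norm_one] at h1
  have h3 : (1 : ℝ) < nm v := by exact_mod_cast (two_le_nm v)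
  have h4 := Real.rpow_lt_one_of_one_lt_of_neg h3 (by linarith : -(s.re - 1 / 2) < 0)
  linarith

lemma fac2_ne {q : ZI} {X : ZI →* ℂ} (H : HC q X) (v : HeightOneSpectrum (𝓞 K)) {s : ℂ}
    (hs : 1 / 2 < s.re) :
    1 - (starRingEnd ℂ) (X (pg e v)) * tc (star (pg e v)) *
      ((Ideal.absNorm v.asIdeal : ℕ) : ℂ) ^ (-s) ≠ 0 := by
  intro h
  have h1 := gterm_bound H e s v
  have h2 : (starRingEnd ℂ) (X (pg e v)) * tc (star (pg e v)) *
      ((Ideal.absNorm v.asIdeal : ℕ) : ℂ) ^ (-s) = 1 := by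
    linear_combination -h
  have h5 := congrArg norm h2
  rw [norm_mul, norm_mul, RCLike.norm_conj, tc_star, RCLike.norm_conj, norm_one] at h5
  rw [norm_mul, norm_mul, h5] at h1
  have h3 : (1 : ℝ) < nm v := by exact_mod_cast (two_le_nm v)
  have h4 := Real.rpow_lt_one_of_one_lt_of_neg h3 (by linarith : -(s.re - 1 / 2) < 0)
  linarith

lemma two_mem_iff (v : HeightOneSpectrum (𝓞 K)) :
    (2 : 𝓞 K) ∈ v.asIdeal ↔ v = plc e pi1_prime := by
  constructor
  · intro h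
    rcases pg_cases e v with ⟨h1, h2⟩ | ⟨h1, h2⟩
    · apply HeightOneSpectrum.ext
      rw [pg_span e v, h2]
      rfl
    · exfalso
      have hPP : PP (pg e v) := ⟨(Ip_spec (below v).2 h2).2.1, (Ip_spec (below v).2 h2).1⟩
      have h3 : (2 : 𝓞 K) = e 2 := by rw [map_ofNat]
      rw [h3, mem_iff e (pg_span e v)] at h
      exact not_dvd_two hPP h
  · rintro rfl
    have h3 : (2 : 𝓞 K) = e 2 := by rw [map_ofNat]
    rw [h3, mem_iff e (v := plc e pi1_prime) (z := pi1) rfl]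
    exact ⟨⟨1, -1⟩, by decide⟩

theorem t_LF : S_LF := by
  intro K _ _ e cn X H hL δ hδ h1 h2
  set v2 : HeightOneSpectrum (𝓞 K) := plc e pi1_prime with hv2
  set a : ℂ → ℂ := fun s =>
    (1 - X (pg e v2) * tc (pg e v2) * ((Ideal.absNorm v2.asIdeal : ℕ) : ℂ) ^ (-s)) *
    (1 - (starRingEnd ℂ) (X (pg e v2)) * tc (star (pg e v2)) *
      ((Ideal.absNorm v2.asIdeal : ℕ) : ℂ) ^ (-s)) with ha
  have hN : ((Ideal.absNorm v2.asIdeal : ℕ) : ℂ) ≠ 0 := by
    have h3 : 2 ≤ Ideal.absNorm v2.asIdeal := two_le_nm v2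
    have h4 : Ideal.absNorm v2.asIdeal ≠ 0 := by omega
    exact_mod_cast h4
  have hd : Differentiable ℂ fun s : ℂ => ((Ideal.absNorm v2.asIdeal : ℕ) : ℂ) ^ (-s) := by
    intro s
    exact (differentiableAt_id.neg).const_cpow (Or.inl hN)
  refine ⟨fun s => LG X s * a s, (LG_diff H).mul ?_, mul_ne_zero (LG_one hL) ?_, fun s hs => ?_⟩
  · rw [ha]
    exact ((differentiable_const _).sub (hd.const_mul _)).mul
      ((differentiable_const _).sub (hd.const_mul _))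
  · rw [ha]
    exact mul_ne_zero (fac1_ne e H v2 (by simp; norm_num)) (fac2_ne e H v2 (by simp; norm_num))
  · have h3 := (g1_hasProd' H e hs).mul (g2_hasProd' H e hs)
    have h4 : HasProd (fun v : HeightOneSpectrum (𝓞 K) => if v = v2 then a s else 1) (a s) :=
      hasProd_ite_eq v2 (a s)
    refine (h3.mul h4).congr_fun fun v => ?_
    by_cases hv : v = v2
    · rw [if_pos ((two_mem_iff e v).2 hv), if_pos hv, hv, ha]
      unfold g1 g2
      have f1 := fac1_ne e H v2 (s := s) (by linarith)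
      have f2 := fac2_ne e H v2 (s := s) (by linarith)
      rw [mul_mul_mul_comm, inv_mul_cancel₀ f1, inv_mul_cancel₀ f2, one_mul]
    · rw [if_neg (fun h => hv ((two_mem_iff e v).1 h)), if_neg hv, mul_one]
      refine locF e h1 h2 v s ?_
      rcases pg_cases e v with ⟨h5, h6⟩ | h5
      · exfalso
        apply hv
        apply HeightOneSpectrum.ext
        rw [pg_span e v, h6]
        rfl
      · exact h5

end Pool.Agent.L7h32.QD
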