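import Pool.Agent.L7h3.QD.Stm

set_option autoImplicit false
set_option linter.unusedSectionVars false
set_option linter.unusedVariables false

/-! The Hecke characters of the classes (a) and (d). -/

open Filter Complex
open scoped Topology PeriodPair Classical

namespace Pool.Agent.L7h32.QD

open Pool.Agent.Y699
open Pool.Agent.L7h3.QD
open H385 (ZI RQ im1 nrm)
open Pool.Agent.W164.RC (tc_mul tc_star two2 prim_iff_dvd unit_norm unit_cases)
open Pool.Agent.H304R2.EC.A1 (prim prim_mul prim_cancel prim_one prim_norm_odd prim_star eq_one_of_prim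
  norm_def' re_mul' im_mul' eq_of_dvd prim_ne_zero exists_prim)
open Pool.Agent.H304R3.HK (tc HC LH)

variable {ι : Type} [DecidableEq ι] {pr : ι → ZI}

lemma cop_DD (hp : PF pr) (V : Finset ι) (a : ZI) : IsCoprime a (DD pr V) ↔ ∀ i ∈ V, ¬ pr i ∣ a := by
  unfold DD
  rw [IsCoprime.prod_right_iff]
  refine forall₂_congr fun i _ => ?_
  rw [isCoprime_comm]
  exact (hp.pp i).pr.irreducible.coprime_iff_not_dvd

lemma four_eq_pi : (4 : ZI) = pi1 ^ 4 * (-1) := by decide

lemma cop_D4 (hp : PF pr) (V : Finset ι) (a : ZI) : IsCoprime a (4 * DD pr V) ↔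
    a.norm % 2 = 1 ∧ ∀ i ∈ V, ¬ pr i ∣ a := by
  rw [IsCoprime.mul_right_iff, cop_DD hp V, norm_odd_iff]
  refine and_congr ?_ Iff.rfl
  constructor
  · intro h h'
    have h1 : pi1 ∣ (4 : ZI) := ⟨⟨2, -2⟩, by decide⟩
    exact pi1_not_dvd (isUnit_iff_dvd_one.1 (h.isUnit_of_dvd' h' h1))
  · intro h
    rw [four_eq_pi]
    refine IsCoprime.mul_right (IsCoprime.pow_right ?_) ?_
    · exact ((pi1_prime.irreducible.coprime_iff_not_dvd).2 h).symm
    · exact ⟨0, -1, by ring⟩

/-- an element with a non-trivial symbol -/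
lemma exists_sym (hp : PF pr) (i : ι) {k : ℕ} (hk : k % 4 ≠ 0) :
    ∃ b, ¬ pr i ∣ b ∧ q4 (pr i) b ^ k ≠ 1 := by
  obtain ⟨b, hb⟩ := exists_nonres (hp.pp i)
  have hbn : ¬ pr i ∣ b := by
    intro h
    rw [qr_zero_iff.2 h] at hb
    norm_num at hb
  have h5 := q4_sq (hp.pp i) b
  rw [hb] at h5
  refine ⟨b, hbn, ?_⟩
  have h6 := q4_norm (hp.pp i) hbn
  have h7 : ((-1 : ℤ) : ZI) = -1 := by simp
  rw [h7] at h5
  rw [unit_pow_mod h6 (n := k % 4) (by omega)]
  have h9 : k % 4 = 1 ∨ k % 4 = 2 ∨ k % 4 = 3 := by omega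
  rcases h9 with h9 | h9 | h9 <;> rw [h9]
  · intro h10
    rw [pow_one] at h10
    rw [h10] at h5
    exact absurd h5 (by decide)
  · rw [h5]; decide
  · intro h10
    have h11 : q4 (pr i) b = -1 := by
      linear_combination -h10 + q4 (pr i) b * h5
    rw [h11] at h5
    exact absurd h5 (by decide)

/-- the Chinese remainder argument: an element that is one modulo `f * DD (V.erase i)` and has a
non-trivial symbol at `pr i` -/
lemma exists_el (hp : PF pr) {V : Finset ι} {e : ι → ℕ} {i : ι} (hi : i ∈ V) (he : e i % 4 ≠ 0)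
    {f : ZI} (hf : IsCoprime (pr i) f) :
    ∃ a : ZI, f * DD pr (V.erase i) ∣ a - 1 ∧ (∀ j ∈ V, ¬ pr j ∣ a) ∧ c4 pr V e a ≠ 1 := by
  set m := f * DD pr (V.erase i) with hm
  have hcop : IsCoprime (pr i) m := by
    rw [hm]
    refine IsCoprime.mul_right hf ?_
    unfold DD
    rw [IsCoprime.prod_right_iff]
    intro j hj
    exact (hp.pp i).cop (hp.pp j) fun h => (Finset.mem_erase.1 hj).1 (hp.inj h).symm
  obtain ⟨b, hb⟩ := exists_sym hp i he
  obtain ⟨x, y, hxy⟩ := hcop
  set a : ZI := x * pr i + b * (y * m) with ha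
  have ha1 : m ∣ a - 1 := ⟨b * y - y, by rw [ha]; linear_combination hxy⟩
  have ha2 : pr i ∣ a - b := ⟨x - b * x, by rw [ha]; linear_combination b * hxy⟩
  have hch : c4 pr V e a = q4 (pr i) b ^ e i := by
    unfold c4
    rw [← Finset.mul_prod_erase V _ hi, fe_per (hp.pp i) _ ha2, Finset.prod_eq_one, mul_one]
    · unfold fe
      rw [if_neg hb.1]
    · intro j hj
      have h3 : pr j ∣ a - 1 := by
        refine (dvd_DD hj).trans ((dvd_mul_left _ _).trans ha1)
      rw [fe_per (hp.pp j) _ h3, fe_unit (hp.pp j) _ (by decide), one_pow]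
  refine ⟨a, ha1, ?_, ?_⟩
  · intro j hj hd'
    have h5 := c4_zero (pr := pr) e hj hd'
    rw [hch] at h5
    have h6 := q4_norm (hp.pp i) hb.1
    have h7 : q4 (pr i) b = 0 := by
      by_contra h8
      exact (pow_ne_zero _ h8) h5
    rw [h7] at h6
    exact absurd h6 (by decide)
  · rw [hch]
    exact hb.2

lemma DD_erase' (hp : PF pr) {V : Finset ι} {i : ι} (hi : i ∈ V) :
    DD pr V = pr i * DD pr (V.erase i) := by
  unfold DD
  exact (Finset.mul_prod_erase V pr hi).symm

lemma DD_dvd_of (hp : PF pr) {V : Finset ι} {d : ZI} (h : ∀ i ∈ V, pr i ∣ d) : DD pr V ∣ d := by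
  unfold DD
  refine Finset.prod_dvd_of_coprime ?_ h
  intro i _ j _ hij
  exact (hp.pp i).cop (hp.pp j) fun h => hij (hp.inj h)

theorem t_HCA : S_HCA := by
  intro ι _ pr hp V e hW he
  refine ⟨DD_ne hp V, ?_, ?_, ?_, ?_, ?_⟩
  · intro a b hab
    rw [XXa_apply, XXa_apply, c4_per hp V e hab]
  · intro a
    rw [cop_DD hp V, XXa_apply]
    constructor
    · intro h i hi hd
      apply h
      rw [c4_zero e hi hd, tc_zero, map_zero]
    · intro h h0
      have h3 := congrArg norm h0
      rw [RCLike.norm_conj, unit_tc (c4_norm hp V e h), norm_zero] at h3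
      norm_num at h3
  · intro a ha
    rw [cop_DD hp V] at ha
    rw [XXa_apply, RCLike.norm_conj, unit_tc (c4_norm hp V e ha)]
  · rw [XXa_apply]
    have h1 : c4 pr V e (⟨0, 1⟩ : ZI) = im1 := by
      have h2 : (⟨0, 1⟩ : ZI) = im1 := rfl
      rw [h2, c4_unit hp V e im1_norm, unit_pow_mod im1_norm (n := 1) (by rw [hW]), pow_one]
    rw [h1, tc_im1, Complex.conj_I]
  · intro d hd hnd
    obtain ⟨i, hi, hid⟩ : ∃ i ∈ V, ¬ pr i ∣ d := by
      by_contra hB
      push Not at hB
      exact hnd (DD_dvd_of hp hB)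
    obtain ⟨a, ha1, ha2, ha3⟩ := exists_el hp (e := e) hi (he i hi) (f := 1) isCoprime_one_right
    rw [one_mul] at ha1
    have hdm : d ∣ DD pr (V.erase i) := by
      rw [DD_erase' hp hi] at hd
      exact ((((hp.pp i).pr.irreducible.coprime_iff_not_dvd).2 hid).symm).dvd_of_dvd_mul_left hd
    refine ⟨a, (cop_DD hp V a).2 ha2, hdm.trans ha1, ?_⟩
    rw [XXa_apply]
    intro h5
    apply ha3
    apply tc_inj
    rw [tc_one]
    have := congrArg (starRingEnd ℂ) h5
    rwa [Complex.conj_conj, map_one] at this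

lemma sd_norm (a : ZI) : (sd a).norm = 1 := by
  unfold sd
  split_ifs <;> decide

lemma sd_per {a b : ZI} (h : (4 : ZI) ∣ a - b) : sd a = sd b := by
  obtain ⟨c, hc⟩ := h
  have h1 : a.im - b.im = 4 * c.im := by
    have := congrArg Zsqrtd.im hc
    rw [im_mul'] at this
    have e1 : (4 : ZI).re = 4 := rfl
    have e2 : (4 : ZI).im = 0 := rfl
    rw [e1, e2, Zsqrtd.im_sub] at this
    linarith
  unfold sd
  have h2 : a.im % 4 = 0 ↔ b.im % 4 = 0 := by omega
  by_cases h3 : a.im % 4 = 0
  · rw [if_pos h3, if_pos (h2.1 h3)]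
  · rw [if_neg h3, if_neg (fun h => h3 (h2.2 h))]

lemma sd_one : sd 1 = 1 := by unfold sd; rw [if_pos (by decide)]

lemma XXd_prim (hp : PF pr) (V : Finset ι) (e : ι → ℕ) {a : ZI} (ha : prim a) :
    XXd hp V e a = (starRingEnd ℂ) (tc (sd a) * tc (c4 pr V e a)) := by
  rw [XXd_apply, un_prim ha, tc_one, one_mul, one_mul]

lemma two2_dvd_four : two2 ∣ (4 : ZI) := ⟨⟨1, -1⟩, by decide⟩

theorem t_HCD : S_HCD := by
  intro ι _ pr hp V e he
  have hnrm : ∀ a : ZI, IsCoprime a (4 * DD pr V) → ‖XXd hp V e a‖ = 1 := by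
    intro a ha
    obtain ⟨h1, h2⟩ := (cop_D4 hp V a).1 ha
    obtain ⟨u, hu⟩ := exists_Um h1
    have hn := c4_norm hp V e (a := u * a) (fun i hi h => h2 i hi ((qr_unit_mul (hp.pp i) hu.1 a).1 h))
    rw [XXd_apply, un_eq hu, norm_mul, unit_tc hu.1, one_mul, RCLike.norm_conj, norm_mul,
      unit_tc hn, unit_tc (sd_norm _), one_mul]
  refine ⟨mul_ne_zero (by decide) (DD_ne hp V), ?_, ?_, hnrm, ?_, ?_⟩
  · intro a b hab
    have h1 : (4 : ZI) ∣ a - b := (dvd_mul_right _ _).trans hab
    have h2 : DD pr V ∣ a - b := (dvd_mul_left _ _).trans hab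
    rw [XXd_apply, XXd_apply]
    by_cases ha : ∃ u, Um a u
    · obtain ⟨u, hu⟩ := ha
      have hw : Um b u := hu.per (two2_dvd_four.trans h1)
      have hc : c4 pr V e (u * a) = c4 pr V e (u * b) := by
        apply c4_per hp
        rw [← mul_sub]
        exact h2.mul_left _
      have hs : sd (u * a) = sd (u * b) := by
        apply sd_per
        rw [← mul_sub]
        exact h1.mul_left _
      rw [un_eq hu, un_eq hw, hc, hs]
    · have ha' : a.norm % 2 ≠ 1 := fun h => ha (exists_Um h)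
      have hb' : b.norm % 2 ≠ 1 := by
        intro hb
        obtain ⟨w, hw⟩ := exists_Um hb
        refine ha ⟨w, hw.per ?_⟩
        have h5 : b - a = -(a - b) := by ring
        rw [h5]
        exact ((two2_dvd_four.trans h1).neg_right)
      rw [un_even ha', un_even hb', tc_zero, zero_mul, zero_mul]
  · intro a
    constructor
    · intro h
      rw [cop_D4 hp V]
      have h1 : a.norm % 2 = 1 := by
        by_contra hc
        apply h
        rw [XXd_apply, un_even hc, tc_zero, zero_mul]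
      refine ⟨h1, fun i hi hd => h ?_⟩
      rw [XXd_apply, c4_zero e hi (hd.mul_left _), tc_zero, mul_zero, map_zero, mul_zero]
    · intro h h0
      have h3 := hnrm a h
      rw [h0, norm_zero] at h3
      norm_num at h3
  · have h1 : Um ⟨0, 1⟩ ⟨0, -1⟩ := by
      refine ⟨by decide, ?_⟩
      have : (⟨0, -1⟩ : ZI) * ⟨0, 1⟩ = 1 := by decide
      rw [this]
      exact prim_one
    rw [XXd_apply, un_eq h1]
    have e : (⟨0, -1⟩ : ZI) * ⟨0, 1⟩ = 1 := by decide
    rw [e, c4_one hp, sd_one, tc_one, one_mul, map_one, mul_one]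
    unfold tc
    simp
  · intro d hd hnd
    by_cases hB : ∃ i ∈ V, ¬ pr i ∣ d
    · obtain ⟨i, hi, hid⟩ := hB
      have hcop4 : IsCoprime (pr i) (4 : ZI) := by
        refine ((hp.pp i).pr.irreducible.coprime_iff_not_dvd).2 fun h => ?_
        apply not_dvd_two2 (hp.pp i)
        have h4 : (4 : ZI) = two2 * ⟨1, -1⟩ := by decide
        rw [h4] at h
        rcases (hp.pp i).pr.dvd_or_dvd h with h5 | h5
        · exact h5
        · exact h5.trans ⟨⟨0, 2⟩, by decide⟩
      obtain ⟨a, ha1, ha2, ha3⟩ := exists_el hp (e := e) hi (he i hi) hcop4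
      have hdm : d ∣ 4 * DD pr (V.erase i) := by
        have h1 : d ∣ pr i * (4 * DD pr (V.erase i)) := by
          have e5 : pr i * (4 * DD pr (V.erase i)) = 4 * DD pr V := by
            rw [DD_erase' hp hi]; ring
          rw [e5]; exact hd
        exact ((((hp.pp i).pr.irreducible.coprime_iff_not_dvd).2 hid).symm).dvd_of_dvd_mul_left h1
      have ha4 : (4 : ZI) ∣ a - 1 := (dvd_mul_right _ _).trans ha1
      have hpa : prim a := by
        rw [prim_iff_dvd]
        exact two2_dvd_four.trans ha4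
      have hsd : sd a = 1 := by rw [sd_per ha4, sd_one]
      refine ⟨a, ?_, hdm.trans ha1, ?_⟩
      · rw [cop_D4 hp V]
        exact ⟨prim_norm_odd hpa, ha2⟩
      · rw [XXd_prim hp V e hpa, hsd, tc_one, one_mul]
        intro h5
        apply ha3
        apply tc_inj
        rw [tc_one]
        have := congrArg (starRingEnd ℂ) h5
        rwa [Complex.conj_conj, map_one] at this
    · push Not at hB
      obtain ⟨f, hf⟩ := DD_dvd_of hp hB
      have he2 : f ∣ 4 := by
        rw [hf, mul_comm 4] at hd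
        exact (mul_dvd_mul_iff_left (DD_ne hp V)).1 hd
      have he3 : ¬ (4 : ZI) ∣ f := by
        intro h
        apply hnd
        rw [hf, mul_comm 4]
        exact mul_dvd_mul_left _ h
      have he4 : f ∣ pi1 ^ 3 := by
        rw [four_eq_pi] at he2
        have hu : IsUnit (-1 : ZI) := isUnit_one.neg
        have he5 : f ∣ pi1 ^ 4 := (hu.dvd_mul_right).1 he2
        obtain ⟨k, hk, hk2⟩ := (dvd_prime_pow pi1_prime 4).1 he5
        have hk3 : k ≠ 4 := by
          rintro rfl
          apply he3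
          rw [four_eq_pi]
          exact (hu.mul_right_dvd).2 hk2.symm.dvd
        exact hk2.dvd.trans (pow_dvd_pow _ (by omega))
      have hDp := DD_prim hp V
      set D := DD pr V with hD
      set a : ZI := 1 + pi1 ^ 3 * D with ha
      have haD : D ∣ a - 1 := ⟨pi1 ^ 3, by rw [ha]; ring⟩
      have hp3 : (pi1 ^ 3 : ZI) = ⟨-2, 2⟩ := by decide
      have q3 : a.re = 1 - 2 * D.re - 2 * D.im := by
        rw [ha, hp3]
        simp only [Zsqrtd.re_add, re_mul', Zsqrtd.re_one]
        ring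
      have q4 : a.im = 2 * D.re - 2 * D.im := by
        rw [ha, hp3]
        simp only [Zsqrtd.im_add, im_mul', Zsqrtd.im_one]
        ring
      obtain ⟨d1, d2⟩ := hDp
      have hpa : prim a := ⟨by omega, by omega⟩
      have hsd : sd a = -1 := by
        unfold sd
        rw [if_neg (by omega)]
      have hc4 : c4 pr V e a = 1 := by
        rw [c4_per hp V e haD, c4_one hp]
      have hX : XXd hp V e a = -1 := by
        rw [XXd_prim hp V e hpa, hsd, hc4, tc_neg, tc_one, mul_one, map_neg, map_one]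
      refine ⟨a, ?_, ?_, ?_⟩
      · rw [hD, cop_D4 hp V]
        refine ⟨prim_norm_odd hpa, fun j hj hd' => ?_⟩
        have h4 : pr j ∣ a - 1 := (dvd_DD hj).trans haD
        have h5 := dvd_sub hd' h4
        rw [sub_sub_cancel] at h5
        exact (hp.pp j).pr.not_isUnit (isUnit_of_dvd_one h5)
      · obtain ⟨g, hg⟩ := he4
        rw [hf]
        exact ⟨g, by rw [ha]; linear_combination D * hg⟩
      · rw [hX]
        norm_num

end Pool.Agent.L7h32.QD
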