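import Pool.Agent.L7h32.QD.HC

set_option autoImplicit false
set_option linter.unusedSectionVars false
set_option linter.unusedVariables false

/-! The central value in class (d). -/

open Filter Complex
open scoped Topology PeriodPair
open H667R3 hiding sq
open Pool.Agent.TH936.CM Pool.Agent.W192.HK

namespace Pool.Agent.L7h32.QD

open Pool.Agent.Y699
open Pool.Agent.L7h3.QD
open H385 (ZI RQ im1 nrm)
open Pool.Agent.H304R3.HK (tc HC LH chi_le)
open Pool.Agent.W164.RC (tc_mul tc_star two2 prim_iff_dvd unit_cases)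
open Pool.Agent.H304R2.EC.A1 (prim prim_mul prim_cancel prim_one prim_norm_odd prim_star eq_one_of_prim
  norm_def' re_mul' im_mul' eq_of_dvd prim_ne_zero)

variable {ι : Type} [DecidableEq ι] {pr : ι → ZI}

theorem sum_XXd (hH : S_HCD) (hp : PF pr) {V : Finset ι} {e : ι → ℕ}
    (he : ∀ i ∈ V, e i % 4 ≠ 0) {δ : ℝ} (hδ : 0 < δ) :
    ∑' a : ZI, XXd hp V e a * (starRingEnd ℂ) (fd δ (tc a)) =
      4 * (starRingEnd ℂ) (RS (ccd pr V e) δ) := by
  classical
  obtain ⟨L, Ω, hGL⟩ := exists_lat
  have H := hH ι pr hp V e he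
  have hs : Summable (fun a : ZI => XXd hp V e a * (starRingEnd ℂ) (fd δ (tc a))) := by
    refine Summable.of_norm_bounded (summ_tc hGL.lat hδ).norm fun a => ?_
    rw [norm_mul, RCLike.norm_conj]
    exact mul_le_of_le_one_left (norm_nonneg _) (chi_le _ _ H a)
  rw [sum_units hs]
  · congr 1
    unfold RS
    rw [Complex.conj_tsum]
    refine tsum_congr fun a => ?_
    unfold ccd
    by_cases ha : prim a
    · rw [if_pos ha, if_pos ha, XXd_prim hp V e ha]
      simp only [map_mul]
    · rw [if_neg ha, if_neg ha, zero_mul, map_zero]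
  · intro a
    have h1 : XXd hp V e im1 = -I := H.unit
    rw [map_mul, h1, tc_mul, tc_im1, fd_mul]
    have h2 : Complex.normSq I = 1 := by simp
    rw [h2, mul_one, map_mul, map_inv₀, Complex.conj_I]
    have h3 : (-I : ℂ)⁻¹ = I := by
      rw [inv_neg, Complex.inv_I, neg_neg]
    rw [h3]
    linear_combination (-(XXd hp V e a * (starRingEnd ℂ) (fd δ (tc a)))) * I_sq
  · intro a ha
    rw [XXd_apply, un_even ha, tc_zero]
    simp

/-- the central value is the conjugate of the limit -/
theorem t_LHD (hH : S_HCD) : S_LHD := by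
  intro ι _ pr hp V e he l hl
  have h1 := center (hH ι pr hp V e he)
  have h2 : Tendsto (fun δ : ℝ => 4 * (starRingEnd ℂ) (RS (ccd pr V e) (Real.pi * δ))) (𝓝[>] 0)
      (𝓝 (4 * (starRingEnd ℂ) l)) := by
    have h3 := tendsto_scale hl Real.pi_pos
    have h4 := (Complex.continuous_conj.tendsto l).comp h3
    have h5 := h4.const_mul 4
    refine h5.congr fun δ => ?_
    simp only [Function.comp_apply]
    rw [mul_comm δ]
  have h3 := tendsto_nhds_unique h1 (h2.congr' (by
    filter_upwards [self_mem_nhdsWithin] with δ (hδ : 0 < δ)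
    exact (sum_XXd hH hp he (by positivity)).symm))
  exact mul_left_cancel₀ (by norm_num) h3

end Pool.Agent.L7h32.QD
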